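import Pool.Agent.Helper181_Sep.LittleRoots

/-!
# Irreducible polynomials of height one with exponentially close roots

For `n = 4 * 8 ^ j - 1` with `j ≥ 2`, there is a monic irreducible polynomial of degree `n` and
height one with two distinct roots at distance at most `2 (87 / 100) ^ (n - 3)`.
-/

set_option autoImplicit false

namespace Pool.Agent.Results.MP_418077_nt.HeightOneIrreducible

open Polynomial

/-- The distances between two distinct complex roots of the separable polynomials of degree `n`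
and height at most `H` that satisfy `C`. -/
def Dist (C : ℤ[X] → Prop) (n H : ℕ) : Set ℝ :=
  {d | ∃ P : ℤ[X], P.natDegree = n ∧ (∀ i, |P.coeff i| ≤ H) ∧
    (P.map (algebraMap ℤ ℂ)).Separable ∧ C P ∧
    ∃ α β : ℂ, α ≠ β ∧ aeval α P = 0 ∧ aeval β P = 0 ∧ d = ‖α - β‖}

/-- `L^*(n, H)`: irreducible polynomials. -/
noncomputable def LStar (n H : ℕ) : ℝ := sInf (Dist (fun P => Irreducible P) n H)

/-- `L_0^*(n, H)`: monic irreducible polynomials. -/
noncomputable def LZeroStar (n H : ℕ) : ℝ :=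
  sInf (Dist (fun P => P.Monic ∧ Irreducible P) n H)

lemma exQ (j : ℕ) (hj : 2 ≤ j) : ∃ q : ℕ, 2 ≤ q ∧ 28 * q + 4 = 4 * 8 ^ j := by
  induction j, hj using Nat.le_induction with
  | base => exact ⟨9, by norm_num, by norm_num⟩
  | succ j _ ih =>
    obtain ⟨q, hq, h⟩ := ih
    exact ⟨8 * q + 1, by omega, by rw [pow_succ]; omega⟩

lemma sInf_le_of_mem (C : ℤ[X] → Prop) (n H : ℕ) (P : ℤ[X]) (h1 : P.natDegree = n)
    (h2 : ∀ i, |P.coeff i| ≤ H) (h3 : (P.map (algebraMap ℤ ℂ)).Separable) (h4 : C P)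
    (x y : ℝ) (hxy : x ≠ y) (hx : aeval (x : ℂ) P = 0) (hy : aeval (y : ℂ) P = 0) (b : ℝ)
    (hb : |x - y| ≤ b) : sInf (Dist C n H) ≤ b := by
  have hbdd : BddBelow (Dist C n H) := by
    refine ⟨0, ?_⟩
    rintro d ⟨_, _, _, _, _, _, _, _, _, _, rfl⟩
    exact norm_nonneg _
  refine (csInf_le hbdd ⟨P, h1, h2, h3, h4, (x : ℂ), (y : ℂ), ?_, hx, hy, rfl⟩).trans ?_
  · exact fun h => hxy (by exact_mod_cast h)
  · rw [← Complex.ofReal_sub, Complex.norm_real, Real.norm_eq_abs]
    exact hb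

lemma separable_of_irreducible (P : ℤ[X]) (hm : P.Monic) (h : Irreducible P) :
    (P.map (algebraMap ℤ ℂ)).Separable := by
  have h1 : Irreducible (P.map (Int.castRingHom ℚ)) :=
    (IsPrimitive.Int.irreducible_iff_irreducible_map_cast hm.isPrimitive).1 h
  have h3 := (h1.separable).map (f := algebraMap ℚ ℂ)
  rw [Polynomial.map_map] at h3
  have h4 : (algebraMap ℚ ℂ).comp (Int.castRingHom ℚ) = algebraMap ℤ ℂ := RingHom.ext_int _ _
  rwa [h4] at h3

lemma aeval_complex (P : ℤ[X]) (x : ℝ) (h : aeval x P = 0) : aeval (x : ℂ) P = 0 := by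
  have h1 := aeval_algebraMap_apply ℂ x P
  rw [h, map_zero] at h1
  exact h1

/-- For infinitely many degrees the minimal root separation of the irreducible polynomials, and of
the monic irreducible polynomials, of height one is exponentially small in the degree. -/
theorem result : ∀ j : ℕ, 2 ≤ j → ∀ H : ℕ, 1 ≤ H →
    LStar (4 * 8 ^ j - 1) H ≤ 2 * (87 / 100 : ℝ) ^ (4 * 8 ^ j - 4) ∧
    LZeroStar (4 * 8 ^ j - 1) H ≤ 2 * (87 / 100 : ℝ) ^ (4 * 8 ^ j - 4) := by
  intro j hj H hH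
  obtain ⟨q, hq, hqj⟩ := exQ j hj
  have hk : 28 * q + 4 = 2 ^ (3 * j + 2) := by
    rw [hqj, pow_add, pow_mul]; norm_num; ring
  have hirr := Helper181_Sep.G_irreducible q (3 * j + 2) hk
  have hm := Helper181_Sep.G_monic q
  obtain ⟨x, y, hxy, hx, hy, hd⟩ := Helper181_Sep.G_roots q hq
  have e1 : 4 * 8 ^ j - 4 = 28 * q := by omega
  have key : ∀ C : ℤ[X] → Prop, (∀ P : ℤ[X], P.Monic → Irreducible P → C P) →
      sInf (Dist C (4 * 8 ^ j - 1) H) ≤ 2 * (87 / 100 : ℝ) ^ (4 * 8 ^ j - 4) := by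
    intro C hC
    refine sInf_le_of_mem C _ H (Helper181_Sep.G q) ?_ (fun i => ?_)
      (separable_of_irreducible _ hm hirr) (hC _ hm hirr) x y hxy (aeval_complex _ x hx)
      (aeval_complex _ y hy) _ (by rw [e1]; exact hd)
    · rw [Helper181_Sep.G_natDegree]; omega
    · exact (Helper181_Sep.G_coeff q i).trans (by exact_mod_cast hH)
  exact ⟨key _ fun _ _ h => h, key _ fun _ h1 h2 => ⟨h1, h2⟩⟩

end Pool.Agent.Results.MP_418077_nt.HeightOneIrreducible
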