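import Pool.Agent.Helper181_Sep.Poly
import Pool.Agent.Helper181_Sep.Roots

/-!
# Exponentially small root separation at every fixed height

For every `n ≥ 51`, `L(n, H)` and `L_0(n, H)` are at most `2 (87 / 100) ^ (n - 1)` for every
`H ≥ 1`, and `L^*(n, H)` and `L_0^*(n, H)` are at most `2 (87 / 100) ^ (n - 1)` for every `H ≥ 2`.
-/

set_option autoImplicit false

namespace Pool.Agent.Results.MP_418077_nt.LinearLower

open Polynomial

/-- The distances between two distinct complex roots of the separable polynomials of degree `n`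
and height at most `H` that satisfy `C`. -/
def Dist (C : ℤ[X] → Prop) (n H : ℕ) : Set ℝ :=
  {d | ∃ P : ℤ[X], P.natDegree = n ∧ (∀ i, |P.coeff i| ≤ H) ∧
    (P.map (algebraMap ℤ ℂ)).Separable ∧ C P ∧
    ∃ α β : ℂ, α ≠ β ∧ aeval α P = 0 ∧ aeval β P = 0 ∧ d = ‖α - β‖}

/-- `L(n, H)`: all separable polynomials. -/
noncomputable def L (n H : ℕ) : ℝ := sInf (Dist (fun _ => True) n H)

/-- `L^*(n, H)`: irreducible polynomials. -/
noncomputable def LStar (n H : ℕ) : ℝ := sInf (Dist (fun P => Irreducible P) n H)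

/-- `L_0(n, H)`: monic polynomials. -/
noncomputable def LZero (n H : ℕ) : ℝ := sInf (Dist (fun P => P.Monic) n H)

/-- `L_0^*(n, H)`: monic irreducible polynomials. -/
noncomputable def LZeroStar (n H : ℕ) : ℝ :=
  sInf (Dist (fun P => P.Monic ∧ Irreducible P) n H)

lemma sInf_le_of_mem (C : ℤ[X] → Prop) (n H : ℕ) (P : ℤ[X]) (h1 : P.natDegree = n)
    (h2 : ∀ i, |P.coeff i| ≤ H) (h3 : (P.map (algebraMap ℤ ℂ)).Separable) (h4 : C P)
    (x y : ℝ) (hxy : x ≠ y) (hx : aeval (x : ℂ) P = 0) (hy : aeval (y : ℂ) P = 0) (b : ℝ)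
    (hb : |x - y| ≤ b) : sInf (Dist C n H) ≤ b := by
  have hbdd : BddBelow (Dist C n H) := by
    refine ⟨0, ?_⟩
    rintro d ⟨_, _, _, _, _, _, _, _, _, _, rfl⟩
    exact norm_nonneg _
  refine (csInf_le hbdd ⟨P, h1, h2, h3, h4, (x : ℂ), (y : ℂ), ?_, hx, hy, rfl⟩).trans ?_
  · exact fun h => hxy (by exact_mod_cast h)
  · rw [← Complex.ofReal_sub, Complex.norm_real, Real.norm_eq_abs]
    exact hb

lemma aeval_F (n : ℕ) (c : ℤ) (x : ℝ) (h : Helper181_Sep.f n c x = 0) :
    aeval (x : ℂ) (Helper181_Sep.F n c) = 0 := by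
  have h1 : aeval (x : ℂ) (Helper181_Sep.F n c) = ((Helper181_Sep.f n c x : ℝ) : ℂ) := by
    unfold Helper181_Sep.F Helper181_Sep.f
    rw [map_sub, map_mul, Helper181_Sep.aeval_R]
    simp
  rw [h1, h]; simp

/-- For every fixed height the minimal root separation decays at least exponentially with the
degree. -/
theorem result : ∀ n : ℕ, 51 ≤ n →
    (∀ H : ℕ, 1 ≤ H → L n H ≤ 2 * (87 / 100 : ℝ) ^ (n - 1) ∧
      LZero n H ≤ 2 * (87 / 100 : ℝ) ^ (n - 1)) ∧
    (∀ H : ℕ, 2 ≤ H → LStar n H ≤ 2 * (87 / 100 : ℝ) ^ (n - 1) ∧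
      LZeroStar n H ≤ 2 * (87 / 100 : ℝ) ^ (n - 1)) := by
  intro n hn
  have hmono : (2 : ℝ) * (87 / 100) ^ n ≤ 2 * (87 / 100 : ℝ) ^ (n - 1) := by
    apply mul_le_mul_of_nonneg_left _ (by norm_num)
    exact pow_le_pow_of_le_one (by norm_num) (by norm_num) (by omega)
  constructor
  · intro H hH
    have key : ∀ C : ℤ[X] → Prop, (∀ P : ℤ[X], P.Monic → C P) →
        sInf (Dist C n H) ≤ 2 * (87 / 100 : ℝ) ^ (n - 1) := by
      intro C hC
      rcases Nat.even_or_odd n with he | ho
      · obtain ⟨k, hk⟩ := he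
        have hk2 : n = 2 * k := by omega
        obtain ⟨x, y, hxy, hx, hy, hd⟩ := Helper181_Sep.two_roots n (by omega) 1 le_rfl
        refine sInf_le_of_mem C n H (Helper181_Sep.F n 1)
          (Helper181_Sep.F_natDegree n (by omega) 1) (fun i => ?_) ?_
          (hC _ (Helper181_Sep.F_monic n (by omega) 1)) x y hxy
          (aeval_F n 1 x (by exact_mod_cast hx)) (aeval_F n 1 y (by exact_mod_cast hy)) _
          (hd.trans hmono)
        · exact (Helper181_Sep.F_coeff n (by omega) 1 le_rfl i).trans (by exact_mod_cast hH)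
        · rw [hk2]; exact Helper181_Sep.F_separable_one k (by omega)
      · obtain ⟨k, hk⟩ := ho
        obtain ⟨x, y, hxy, hx, hy, hd⟩ := Helper181_Sep.two_roots (2 * k) (by omega) 1 le_rfl
        have hm := Helper181_Sep.F_monic (2 * k) (by omega) 1
        refine sInf_le_of_mem C n H (X * Helper181_Sep.F (2 * k) 1) ?_ (fun i => ?_)
          (Helper181_Sep.XF_separable k (by omega)) (hC _ (monic_X.mul hm)) x y hxy ?_ ?_ _ ?_
        · rw [natDegree_X_mul hm.ne_zero, Helper181_Sep.F_natDegree (2 * k) (by omega) 1, hk]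
        · cases i with
          | zero => rw [coeff_X_mul_zero]; simp
          | succ j =>
            rw [coeff_X_mul]
            exact (Helper181_Sep.F_coeff (2 * k) (by omega) 1 le_rfl j).trans
              (by exact_mod_cast hH)
        · rw [map_mul, aeval_F (2 * k) 1 x (by exact_mod_cast hx), mul_zero]
        · rw [map_mul, aeval_F (2 * k) 1 y (by exact_mod_cast hy), mul_zero]
        · have : n - 1 = 2 * k := by omega
          rw [this]; exact hd
    exact ⟨key _ fun _ _ => trivial, key _ fun _ h => h⟩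
  · intro H hH
    obtain ⟨x, y, hxy, hx, hy, hd⟩ := Helper181_Sep.two_roots n (by omega) 2 (by norm_num)
    have key : ∀ C : ℤ[X] → Prop, (∀ P : ℤ[X], P.Monic → Irreducible P → C P) →
        sInf (Dist C n H) ≤ 2 * (87 / 100 : ℝ) ^ (n - 1) := by
      intro C hC
      refine sInf_le_of_mem C n H (Helper181_Sep.F n 2)
        (Helper181_Sep.F_natDegree n (by omega) 2) (fun i => ?_)
        (Helper181_Sep.F_separable_two n (by omega))
        (hC _ (Helper181_Sep.F_monic n (by omega) 2) (Helper181_Sep.F_irreducible n (by omega)))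
        x y hxy (aeval_F n 2 x (by exact_mod_cast hx)) (aeval_F n 2 y (by exact_mod_cast hy)) _
        (hd.trans hmono)
      exact (Helper181_Sep.F_coeff n (by omega) 2 (by norm_num) i).trans (by exact_mod_cast hH)
    exact ⟨key _ fun _ _ h => h, key _ fun _ h1 h2 => ⟨h1, h2⟩⟩

end Pool.Agent.Results.MP_418077_nt.LinearLower
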